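import Pool.Agent.MD.I.Apx
import Pool.Agent.LD.I.Inst

/-!
# MD/F-Cho: choice of the elements

PLAN.  `choose1`: for every `w ∈ W` the four classes `1, e, p, e p` (`uK w e = -1`, `ord p` odd: `exists_nonres`, LD/I/Inst, and a uniformizer) are pairwise different modulo local squares, so for given `b` one of `e`, `p`, `e p` is
different from the class of `b` — more precisely one of them, `y w`, has `¬ LSq w (y w)` and `¬ LSq w (y w * b)`: if `LSq w (e b)` and `LSq w (p b)` then `LSq w (e p b²)`, `LSq w (e p)`, false (order odd); so among `e`, `p` one works.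
`approx_many ST W` (MD/I/Apx) with `x = 1`: `a ∈ HSub ST`, so a local square at `ST ⊇` the places not away from `T`, and `LSq w (a / y w)`.  `choose2`: `y w = e` for `a`, `y w = p` for `b` (two applications).
`ST`: the finite set of places not away from `T` (`not_away_finite`, QD/In/Ex).
-/

namespace Pool.Agent.MD

open NumberField IsDedekindDomain Pool.Agent.HWR Pool.Agent.QD Pool.Agent.QD.In Pool.Agent.LD

private theorem nsq_odd {K : Type} [Field K] [NumberField K] {w : HeightOneSpectrum (𝓞 K)} {x : Kˣ}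
    (hx : Odd (ordK w x)) : ¬ LSq w x := by
  intro h
  have h1 : uK w x = 1 := uK_of_LSq h
  have h2 : uK w x = 0 := uK_eq_zero_iff.2 hx
  rw [h1] at h2
  exact absurd h2 one_ne_zero

private theorem nsq_neg {K : Type} [Field K] [NumberField K] {w : HeightOneSpectrum (𝓞 K)} {x : Kˣ}
    (hx : uK w x = -1) : ¬ LSq w x := by
  intro h
  have h1 : uK w x = 1 := uK_of_LSq h
  rw [hx] at h1
  norm_num at h1

private theorem odd_mul {K : Type} [Field K] [NumberField K] {w : HeightOneSpectrum (𝓞 K)} {e p : Kˣ}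
    (he : uK w e = -1) (hp : ordK w p = 1) : Odd (ordK w (e * p)) := by
  have h1 : ¬ Odd (ordK w e) := by
    intro h
    have h2 : uK w e = 0 := uK_eq_zero_iff.2 h
    rw [he] at h2
    norm_num at h2
  rw [Int.not_odd_iff_even] at h1
  have h2 : ordK w (e * p) = ordK w e + ordK w p := Pool.Agent.QD.ordK_mul w e p
  rw [h2, hp]
  exact h1.add_odd odd_one

/-- a nonsquare unit and a uniformizer -/
private theorem exists_ep {K : Type} [Field K] [NumberField K] {T : Finset ℕ} (h2 : 2 ∈ T)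
    {w : HeightOneSpectrum (𝓞 K)} (hw : Away K T w) : ∃ e p : Kˣ, uK w e = -1 ∧ ordK w p = 1 := by
  have h2w : (2 : 𝓞 K) ∉ w.asIdeal := by
    have := hw 2 h2
    exact_mod_cast this
  obtain ⟨e, he⟩ := Pool.Agent.LD.exists_nonres w h2w
  obtain ⟨p, hp⟩ := Pool.Agent.QD.N2.exists_ordK w 1
  exact ⟨e, p, he, hp⟩

private theorem approx {K : Type} [Field K] [NumberField K] {T : Finset ℕ}
    (hTp : ∀ p ∈ T, p.Prime) (W : Finset (HeightOneSpectrum (𝓞 K))) (hW : ∀ w ∈ W, Away K T w)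
    (y : HeightOneSpectrum (𝓞 K) → Kˣ) :
    ∃ a : Kˣ, (∀ v, ¬ Away K T v → LSq v a) ∧ ∀ w ∈ W, LSq w (a / y w) := by
  have hfin := not_away_finite K T hTp
  have hd : ∀ v ∈ W, v ∉ hfin.toFinset := by
    intro v hv hv'
    exact (hfin.mem_toFinset.1 hv') (hW v hv)
  obtain ⟨a, ha, ha'⟩ := approx_many hfin.toFinset W hd 1 y
  refine ⟨a, fun v hv => ?_, ha'⟩
  rw [div_one] at ha
  exact (mem_HSub.1 ha).1 v (hfin.mem_toFinset.2 hv)

private theorem lsq_of {K : Type} [Field K] [NumberField K] {w : HeightOneSpectrum (𝓞 K)}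
    {a y c : Kˣ} (h1 : LSq w (a / y)) (h2 : LSq w (a * c)) : LSq w (y * c) := by
  have h3 : LSq w ((a * c) / (a / y)) := LSq_div h2 h1
  have h4 : (a * c) / (a / y) = y * c := by
    rw [div_div_eq_mul_div, mul_comm a c, mul_assoc, mul_comm a y, ← mul_assoc, mul_div_assoc,
      div_self', mul_one, mul_comm]
  rwa [h4] at h3

private theorem lsq_of' {K : Type} [Field K] [NumberField K] {w : HeightOneSpectrum (𝓞 K)}
    {a y : Kˣ} (h1 : LSq w (a / y)) (h2 : LSq w a) : LSq w y := by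
  have h3 := lsq_of (c := 1) h1 (by rwa [mul_one])
  rwa [mul_one] at h3

theorem choose1 {K : Type} [Field K] [NumberField K] {T : Finset ℕ} (hTp : ∀ p ∈ T, p.Prime)
    (h2 : 2 ∈ T) (W : Finset (HeightOneSpectrum (𝓞 K))) (hW : ∀ w ∈ W, Away K T w) (b : Kˣ) :
    ∃ a : Kˣ, (∀ v, ¬ Away K T v → LSq v a) ∧ ∀ w ∈ W, ¬ LSq w a ∧ ¬ LSq w (a * b) := by
  classical
  have hex : ∀ w : HeightOneSpectrum (𝓞 K), ∃ y : Kˣ, w ∈ W → ¬ LSq w y ∧ ¬ LSq w (y * b) := by
    intro w
    by_cases hw : w ∈ W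
    · obtain ⟨e, p, he, hp⟩ := exists_ep h2 (hW w hw)
      by_cases heb : LSq w (e * b)
      · refine ⟨p, fun _ => ⟨nsq_odd (by rw [hp]; exact odd_one), fun hpb => ?_⟩⟩
        have h3 : LSq w ((e * b) * (p * b)) := LSq_mul heb hpb
        have h4 : LSq w (((e * b) * (p * b)) / b ^ 2) := LSq_div h3 (LSq_sq w b)
        have h5 : ((e * b) * (p * b)) / b ^ 2 = e * p := by
          rw [mul_mul_mul_comm, ← pow_two, mul_div_assoc, div_self', mul_one]
        rw [h5] at h4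
        exact nsq_odd (odd_mul he hp) h4
      · exact ⟨e, fun _ => ⟨nsq_neg he, heb⟩⟩
    · exact ⟨1, fun h => absurd h hw⟩
  choose y hy using hex
  obtain ⟨a, ha, ha'⟩ := approx hTp W hW y
  refine ⟨a, ha, fun w hw => ⟨fun h => ?_, fun h => ?_⟩⟩
  · exact (hy w hw).1 (lsq_of' (ha' w hw) h)
  · exact (hy w hw).2 (lsq_of (ha' w hw) h)

theorem choose2 {K : Type} [Field K] [NumberField K] {T : Finset ℕ} (hTp : ∀ p ∈ T, p.Prime)
    (h2 : 2 ∈ T) (W : Finset (HeightOneSpectrum (𝓞 K))) (hW : ∀ w ∈ W, Away K T w) :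
    ∃ a b : Kˣ, (∀ v, ¬ Away K T v → LSq v a) ∧
      ∀ w ∈ W, ¬ LSq w a ∧ ¬ LSq w b ∧ ¬ LSq w (a * b) := by
  classical
  have hex : ∀ w : HeightOneSpectrum (𝓞 K), ∃ e p : Kˣ, w ∈ W → uK w e = -1 ∧ ordK w p = 1 := by
    intro w
    by_cases hw : w ∈ W
    · obtain ⟨e, p, he, hp⟩ := exists_ep h2 (hW w hw)
      exact ⟨e, p, fun _ => ⟨he, hp⟩⟩
    · exact ⟨1, 1, fun h => absurd h hw⟩
  choose e p hep using hex
  obtain ⟨a, ha, ha'⟩ := approx hTp W hW e
  obtain ⟨b, -, hb'⟩ := approx hTp W hW p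
  refine ⟨a, b, ha, fun w hw => ⟨fun h => ?_, fun h => ?_, fun h => ?_⟩⟩
  · exact nsq_neg (hep w hw).1 (lsq_of' (ha' w hw) h)
  · exact nsq_odd (by rw [(hep w hw).2]; exact odd_one) (lsq_of' (hb' w hw) h)
  · have h3 : LSq w (e w * b) := lsq_of (ha' w hw) h
    have h4 : LSq w (b * e w) := by rwa [mul_comm] at h3
    have h5 : LSq w (p w * e w) := lsq_of (hb' w hw) h4
    have h6 : LSq w (e w * p w) := by rwa [mul_comm] at h5
    exact nsq_odd (odd_mul (hep w hw).1 (hep w hw).2) h6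

end Pool.Agent.MD
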