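import Pool.Agent.MD.E.Defs2
import Pool.Agent.H73.AL.Final

/-!
# MD/F-Mer: meromorphic continuation from the relation of a biquadratic extension

PLAN (compare `MER_of_rel`, `list_HW`, H73/AL/Final.lean).  `hw2_of_hw`: square of the function, `w² = 1` (`w_sq`).  `mer2_of_rel`: `g` = the function of `F4`, `f` = product of those of `Fa, Fb, Fc` (`list_HW` for
`[F4]` and `[Fa, Fb, Fc]`); `rel_Lam`: `Lam K ^ 2 * Lam F4 = Lam Fa * Lam Fb * Lam Fc` for `Re s > 3/2`, `rel_w`: `w K ^ 2 * w F4 = w Fa * w Fb * w Fc`, and `w K ^ 2 = 1`, all `w = ± 1` (`w_sq`), so the functional equation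
`f s * g (2 - s) = f (2 - s) * g s`.  `g ≠ 0` for `Re s > 3/2`: `Lam_ne`; lower bound on `Re s = 3` from `list_HW` (pass from `exp (-(N |Im s|))` to `exp (-(1 + |Im s|)^k)` as in the proof of `MER_of_rel`: constants).
`mer_of_rel2`: `Fb` is the field, `g` = (function of `Fa`)(function of `Fc`) (`list_HW` for `[Fa, Fc]`), `f` = (function `L2` of `HW2 K`)(function of `F4`): `g Lam Fb = f`; `FinOrd f`: `finOrd_mul`; functional
equation: `w Fb = w K ^ 2 w F4 / (w Fa w Fc) = w F4 * w Fa * w Fc`.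
-/

namespace Pool.Agent.MD

open NumberField IsDedekindDomain Pool.Agent.HWR Pool.Agent.QD Pool.Agent.H73.AL

section

variable {T : Finset ℕ} (D : LocData T) (hTp : ∀ p ∈ T, p.Prime)
  (hT : ∀ p : ℕ, p.Prime → p < 101 → p ∈ T) {a : ℕ → ℝ}
  (ha : ∀ q : ℕ, |a q| ≤ 2 * Real.sqrt q)

theorem hw2_of_hw (F : Type) [Field F] [NumberField F] (h : D.HW a F) : HW2 D a F := by
  obtain ⟨L, h1, h2, h3, h4⟩ := h
  refine ⟨fun s => L s * L s, h1.mul h1, finOrd_mul h2 h2, fun s => ?_, fun s hs => ?_⟩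
  · change L s * L s = L (2 - s) * L (2 - s)
    rcases w_sq D F with h5 | h5
    · rw [h3 s, h5]
      ring
    · rw [h3 s, h5]
      ring
  · change L s * L s = _
    rw [h4 s hs]
    ring

private theorem exp_low (N : ℝ) {x : ℝ} (hx : 0 ≤ x) :
    -N ^ 2 + -(1 + x) ^ 2 ≤ -(N * x) := by
  nlinarith [sq_nonneg (x - N / 2), sq_nonneg N]

include hTp hT ha in
theorem mer2_of_rel {K Fa Fb Fc F4 : NF} (h : Rel T [K, K, F4] [Fa, Fb, Fc])
    (h4 : D.HW a F4.F) (h1 : D.HW a Fa.F) (h2 : D.HW a Fb.F) (h3 : D.HW a Fc.F) :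
    MER2 D a K.F := by
  obtain ⟨g, g1, g2, g3, g4, c, hc, N, hN, g5⟩ := list_HW D hTp hT ha [F4] (by
    intro F hF
    rw [List.mem_singleton] at hF
    rw [hF]
    exact h4)
  obtain ⟨f, f1, f2, f3, f4, -⟩ := list_HW D hTp hT ha [Fa, Fb, Fc] (by
    intro F hF
    simp only [List.mem_cons, List.not_mem_nil, or_false] at hF
    rcases hF with hF | hF | hF
    · rw [hF]
      exact h1
    · rw [hF]
      exact h2
    · rw [hF]
      exact h3)
  have hw := rel_w D h
  simp only [List.map_cons, List.map_nil, List.prod_cons, List.prod_nil, mul_one] at hw g3 g4 f3 f4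
  refine ⟨f, g, f1, g1, f2, g2, fun s hs => ?_, ⟨c * Real.exp (-N ^ 2), by positivity, 2,
    fun s hs => ?_⟩, fun s hs => ?_, fun s => ?_⟩
  · rw [g4 s hs]
    exact Lam_ne D hTp hT ha F4.F hs
  · refine le_trans ?_ (g5 s hs)
    rw [mul_assoc, ← Real.exp_add]
    exact mul_le_mul_of_nonneg_left (Real.exp_le_exp.2 (exp_low N (abs_nonneg _))) hc.le
  · have h5 := rel_Lam D hTp hT ha h hs
    simp only [List.map_cons, List.map_nil, List.prod_cons, List.prod_nil, mul_one] at h5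
    rw [g4 s hs, f4 s hs, ← h5]
    ring
  · rw [f3 s, g3 s, ← hw]
    rcases w_sq D K.F with h5 | h5
    · rw [h5]
      ring
    · rw [h5]
      ring

include hTp hT ha in
theorem mer_of_rel2 {K Fa Fb Fc F4 : NF} (h : Rel T [K, K, F4] [Fa, Fb, Fc])
    (h4 : D.HW a F4.F) (h1 : D.HW a Fa.F) (hK : HW2 D a K.F) (h3 : D.HW a Fc.F) :
    D.MER a Fb.F := by
  obtain ⟨L2, k1, k2, k3, k4⟩ := hK
  obtain ⟨Q, q1, q2, q3, q4, -⟩ := list_HW D hTp hT ha [F4] (by
    intro F hF
    rw [List.mem_singleton] at hF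
    rw [hF]
    exact h4)
  obtain ⟨g, g1, g2, g3, g4, c, hc, N, hN, g5⟩ := list_HW D hTp hT ha [Fa, Fc] (by
    intro F hF
    simp only [List.mem_cons, List.not_mem_nil, or_false] at hF
    rcases hF with hF | hF
    · rw [hF]
      exact h1
    · rw [hF]
      exact h3)
  have hw := rel_w D h
  simp only [List.map_cons, List.map_nil, List.prod_cons, List.prod_nil, mul_one] at hw g3 g4 q3 q4
  have hw4 : D.w F4.F = D.w Fa.F * (D.w Fb.F * D.w Fc.F) := by
    rw [← hw]
    rcases w_sq D K.F with h5 | h5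
    · rw [h5]
      ring
    · rw [h5]
      ring
  refine ⟨fun s => L2 s * Q s, g, k1.mul q1, g1, finOrd_mul k2 q2, g2, fun s hs => ?_,
    ⟨c * Real.exp (-N ^ 2), by positivity, 2, fun s hs => ?_⟩, fun s hs => ?_, fun s => ?_⟩
  · rw [g4 s hs]
    exact mul_ne_zero (Lam_ne D hTp hT ha Fa.F hs) (Lam_ne D hTp hT ha Fc.F hs)
  · refine le_trans ?_ (g5 s hs)
    rw [mul_assoc, ← Real.exp_add]
    exact mul_le_mul_of_nonneg_left (Real.exp_le_exp.2 (exp_low N (abs_nonneg _))) hc.le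
  · have h5 := rel_Lam D hTp hT ha h hs
    simp only [List.map_cons, List.map_nil, List.prod_cons, List.prod_nil, mul_one] at h5
    change g s * D.Lam a Fb.F s = L2 s * Q s
    rw [g4 s hs, k4 s hs, q4 s hs]
    have h6 : D.Lam a K.F s ^ 2 * D.Lam a F4.F s =
        D.Lam a K.F s * (D.Lam a K.F s * D.Lam a F4.F s) := by ring
    rw [h6, h5]
    ring
  · change L2 s * Q s * g (2 - s) = D.w Fb.F * (L2 (2 - s) * Q (2 - s) * g s)
    rw [k3 s, q3 s, g3 s, hw4]
    ring

end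

end Pool.Agent.MD
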