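import Pool.Agent.MD.F.Odd
import Pool.Agent.MD.F.Cho
import Pool.Agent.MD.F.Mer
import Pool.Agent.MD.L.V4
import Pool.Agent.MD.E.Fin
import Pool.Agent.QD.F.Main

/-!
# MD/F-Core: towers of quadratic extensions of bounded length

`QTn k n F`: `F` is obtained from `k` by `n` successive quadratic extensions.  Same proofs as in MD/F/Main, with bounds
for the length of the towers.
-/

namespace Pool.Agent.MD

open NumberField IsDedekindDomain Pool.Agent.HWR Pool.Agent.QD Pool.Agent.QD.In Pool.Agent.LD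

/-- `F` is obtained from `k` by `n` successive quadratic extensions -/
inductive QTn (k : Type) [Field k] [NumberField k] : ℕ → Ext k → Prop
  | base : QTn k 0 ⟨k⟩
  | step {n : ℕ} {F F' : Ext k} (inst : Algebra F.F F'.F) (tow : IsScalarTower k F.F F'.F)
      (h : QTn k n F) (deg : Module.finrank F.F F'.F = 2) : QTn k (n + 1) F'

/-- an extension of `F` as an extension of `k` -/
private noncomputable def up {k : Type} [Field k] [NumberField k] (F : Ext k) (L : Type) [Field L]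
    [NumberField L] [Algebra F.F L] : Ext k :=
  { F := L
    alg := ((algebraMap F.F L).comp (algebraMap k F.F)).toAlgebra }

private noncomputable instance upAlg {k : Type} [Field k] [NumberField k] (F : Ext k) (L : Type) [Field L]
    [NumberField L] [i : Algebra F.F L] : Algebra F.F (up F L).F := i

private instance upTow {k : Type} [Field k] [NumberField k] (F : Ext k) (L : Type) [Field L]
    [NumberField L] [Algebra F.F L] : IsScalarTower k F.F (up F L).F :=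
  IsScalarTower.of_algebraMap_eq' rfl

private theorem up_QT {k : Type} [Field k] [NumberField k] {n : ℕ} {F : Ext k} (h : QTn k n F) (L : Type) [Field L]
    [NumberField L] [Algebra F.F L] (hd : Module.finrank F.F L = 2) : QTn k (n + 1) (up F L) :=
  QTn.step (F := F) (F' := up F L) (upAlg F L) (upTow F L) h hd

private theorem nsq_of_nlsq {K : Type} [Field K] [NumberField K] {v : HeightOneSpectrum (𝓞 K)} {x : Kˣ}
    (h : ¬ LSq v x) : ¬ IsSquare x := by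
  rintro ⟨r, hr⟩
  apply h
  rw [hr, ← pow_two]
  exact Pool.Agent.QD.N4.LSq_sq v r

private theorem nsq_val {K : Type} [Field K] {x : Kˣ} (h : ¬ IsSquare x) : ¬ IsSquare (x : K) := by
  rintro ⟨r, hr⟩
  apply h
  have hr0 : r ≠ 0 := by
    intro h0
    rw [h0, mul_zero] at hr
    exact x.ne_zero hr
  refine ⟨Units.mk0 r hr0, Units.ext ?_⟩
  rw [Units.val_mul, Units.val_mk0]
  exact hr

section

variable {k : Type} [Field k] [NumberField k] {T : Finset ℕ} (hTp : ∀ p ∈ T, p.Prime)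
    (hT : ∀ p : ℕ, p.Prime → p < 101 → p ∈ T) (D : LocData T) (a : ℕ → ℝ)
    (ha : ∀ q : ℕ, |a q| ≤ 2 * Real.sqrt q) (hfr : FrobRel T a)
    {V : Finset (HeightOneSpectrum (𝓞 k))} (hV : ∀ v ∈ V, Away k T v)
    {N : ℕ} (H : ∀ n : ℕ, n ≤ N + 2 → ∀ F : Ext k, QTn k n F → AllEven V F → D.HW a F.F)

include H in
private theorem hwv {n : ℕ} (hn : n ≤ N + 1) {F : Ext k} (hF : QTn k n F) :
    HWV D a (od_fin V F).toFinset := by
  intro x hx L _ _ _ θ hd hθ
  have h1 : QTn k (n + 1) (up F L) := up_QT hF L hd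
  have h2 : AllEven V (up F L) :=
    even_up (F := F) (up F L) x θ hθ fun w hw => hx w ((od_fin V F).mem_toFinset.2 hw)
  exact H (n + 1) (by omega) (up F L) h1 h2

include hV in
private theorem od_away' (F : Ext k) : ∀ w ∈ (od_fin V F).toFinset, Away F.F T w :=
  fun w hw => od_away hV F w ((od_fin V F).mem_toFinset.1 hw)

private theorem od_ne {F : Ext k} (h : ¬ AllEven V F) : (od_fin V F).toFinset.Nonempty := by
  rw [Set.Finite.toFinset_nonempty, Set.nonempty_iff_ne_empty]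
  exact fun h0 => h ((allEven_iff F).2 h0)

include H in
/-- Hasse-Weil for a quadratic extension of `F` generated by the root of an element which is no
local square at the odd places -/
private theorem hw_quad {n : ℕ} (hn : n ≤ N + 1) {F : Ext k} (hF : QTn k n F) (x : (F.F)ˣ) (hxw : ∀ w ∈ Od V F, ¬ LSq w x)
    (L : Type) [Field L] [NumberField L] [Algebra F.F L] (θ : L) (hd : Module.finrank F.F L = 2)
    (hθ : θ ^ 2 = algebraMap F.F L (x : F.F)) : QTn k (n + 1) (up F L) ∧ AllEven V (up F L) ∧ D.HW a L := by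
  have h1 : QTn k (n + 1) (up F L) := up_QT hF L hd
  have h2 : AllEven V (up F L) := even_up (F := F) (up F L) x θ hθ hxw
  exact ⟨h1, h2, H (n + 1) (by omega) (up F L) h1 h2⟩

include H in
private theorem hw_down {n : ℕ} (hn : n ≤ N + 1) {E : Ext k} (hE : QTn k n E) (hA : AllEven V E) (L : Type) [Field L] [NumberField L]
    [Algebra E.F L] (hd : Module.finrank E.F L = 2) : D.HW a L :=
  H (n + 1) (by omega) (up E L) (up_QT hE L hd) (od_down (F := E) (up E L) hA)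

include H in
/-- the fields of a biquadratic extension -/
private theorem biquad {n : ℕ} (hn : n ≤ N) {F : Ext k} (hF : QTn k n F) (x y : (F.F)ˣ)
    (hx : ¬ IsSquare x) (hy : ¬ IsSquare y) (hxy : ¬ IsSquare (x * y))
    (hxw : ∀ w ∈ Od V F, ¬ LSq w x) (hxyw : ∀ w ∈ Od V F, ¬ LSq w (x * y))
    (hTx : ∀ v : HeightOneSpectrum (𝓞 F.F), ¬ Away F.F T v → LSq v x)
    (Fb : Pool.Agent.H73.AL.NF) [Algebra F.F Fb.F] (θb : Fb.F) (db : Module.finrank F.F Fb.F = 2)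
    (sb : θb ^ 2 = algebraMap F.F Fb.F (y : F.F)) :
    ∃ Fa Fc F4 : Pool.Agent.H73.AL.NF, D.HW a Fa.F ∧ D.HW a Fc.F ∧ D.HW a F4.F ∧
      Pool.Agent.H73.AL.Rel T [⟨F.F⟩, ⟨F.F⟩, F4] [Fa, Fb, Fc] := by
  obtain ⟨qa⟩ := qf_nonempty hx
  obtain ⟨qc⟩ := qf_nonempty hxy
  have h4ns : ¬ IsSquare (algebraMap F.F qa.L (y : F.F)) :=
    not_sq_quad (nsq_val hx) (nsq_val hy) (by rw [← Units.val_mul]; exact nsq_val hxy) qa.θ qa.sq qa.deg
  have h4 : ¬ IsSquare (Units.map (algebraMap F.F qa.L : F.F →* qa.L) y) := by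
    rintro ⟨r, hr⟩
    apply h4ns
    refine ⟨(r : qa.L), ?_⟩
    have := congrArg (fun u : (qa.L)ˣ => (u : qa.L)) hr
    simpa using this
  obtain ⟨q4⟩ := qf_nonempty h4
  obtain ⟨a1, a2, a3⟩ := hw_quad D a H (by omega) hF x hxw qa.L qa.θ qa.deg qa.sq
  obtain ⟨c1, c2, c3⟩ := hw_quad D a H (by omega) hF (x * y) hxyw qc.L qc.θ qc.deg qc.sq
  have b3 : D.HW a q4.L :=
    @hw_down k _ _ T D a V N H (n + 1) (by omega) (up F qa.L) a1 a2 q4.L q4.fld q4.nf q4.alg q4.deg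
  refine ⟨⟨qa.L⟩, ⟨qc.L⟩, ⟨q4.L⟩, a3, c3, b3, ?_⟩
  let i1 : Algebra (⟨F.F⟩ : Pool.Agent.H73.AL.NF).F (⟨qa.L⟩ : Pool.Agent.H73.AL.NF).F := qa.alg
  let i2 : Algebra (⟨F.F⟩ : Pool.Agent.H73.AL.NF).F (⟨qc.L⟩ : Pool.Agent.H73.AL.NF).F := qc.alg
  let i3 : Algebra (⟨F.F⟩ : Pool.Agent.H73.AL.NF).F Fb.F := inferInstanceAs (Algebra F.F Fb.F)
  let i4 : Algebra (⟨qa.L⟩ : Pool.Agent.H73.AL.NF).F (⟨q4.L⟩ : Pool.Agent.H73.AL.NF).F := q4.alg
  exact rel_v4 T ⟨F.F⟩ ⟨qa.L⟩ Fb ⟨qc.L⟩ ⟨q4.L⟩ x y hx hy hxy qa.θ θb qc.θ q4.θ qa.deg db qc.deg q4.deg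
    qa.sq sb qc.sq q4.sq hTx

include hTp hT ha hfr hV H in
private theorem hw2_all {n : ℕ} (hn : n ≤ N) {F : Ext k} (hF : QTn k n F) : HW2 D a F.F := by
  by_cases hE : AllEven V F
  · exact hw2_of_hw D F.F (H n (by omega) F hF hE)
  obtain ⟨x, y, hTx, hw⟩ := choose2 hTp (hT 2 Nat.prime_two (by norm_num)) (od_fin V F).toFinset
    (od_away' hV F)
  obtain ⟨w, hwm⟩ := od_ne hE
  have hw' : ∀ w ∈ Od V F, ¬ LSq w x ∧ ¬ LSq w y ∧ ¬ LSq w (x * y) :=
    fun w hwm => hw w ((od_fin V F).mem_toFinset.2 hwm)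
  have hx : ¬ IsSquare x := nsq_of_nlsq (hw w hwm).1
  have hy : ¬ IsSquare y := nsq_of_nlsq (hw w hwm).2.1
  have hxy : ¬ IsSquare (x * y) := nsq_of_nlsq (hw w hwm).2.2
  obtain ⟨qb⟩ := qf_nonempty hy
  let i3 : Algebra F.F (⟨qb.L⟩ : Pool.Agent.H73.AL.NF).F := qb.alg
  obtain ⟨Fa, Fc, F4, h1, h3, h4, hrel⟩ := biquad D a H hn hF x y hx hy hxy (fun w hwm => (hw' w hwm).1)
    (fun w hwm => (hw' w hwm).2.2) hTx ⟨qb.L⟩ qb.θ qb.deg qb.sq
  have h2 : D.HW a qb.L := (hw_quad D a H (by omega) hF y (fun w hwm => (hw' w hwm).2.1) qb.L qb.θ qb.deg qb.sq).2.2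
  have hM : MER2 D a F.F := mer2_of_rel D hTp hT ha (K := ⟨F.F⟩) (Fb := ⟨qb.L⟩) hrel h4 h1 h2 h3
  exact hw2_of_mer2 F.F T hTp hT D a ha (sqRel_of_frob F.F T a hfr) (od_fin V F).toFinset
    (od_away' hV F) (od_ne hE) (hwv D a H (by omega) hF) hM

include hTp hT ha hfr hV H in
private theorem hw_step {n : ℕ} (hn : n ≤ N) {F F' : Ext k} (hF : QTn k n F) (inst : Algebra F.F F'.F)
    (tow : IsScalarTower k F.F F'.F) (deg : Module.finrank F.F F'.F = 2) : D.HW a F'.F := by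
  have hF' : QTn k (n + 1) F' := QTn.step inst tow hF deg
  by_cases hE' : AllEven V F'
  · exact H (n + 1) (by omega) F' hF' hE'
  have hE : ¬ AllEven V F := fun h => hE' (od_down (F := F) F' h)
  obtain ⟨y, θ, hy, hθ⟩ := exists_root (K := F.F) F'.F deg
  obtain ⟨x, hTx, hw⟩ := choose1 hTp (hT 2 Nat.prime_two (by norm_num)) (od_fin V F).toFinset
    (od_away' hV F) y
  obtain ⟨w, hwm⟩ := od_ne hE
  have hw' : ∀ w ∈ Od V F, ¬ LSq w x ∧ ¬ LSq w (x * y) :=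
    fun w hwm => hw w ((od_fin V F).mem_toFinset.2 hwm)
  have hx : ¬ IsSquare x := nsq_of_nlsq (hw w hwm).1
  have hxy : ¬ IsSquare (x * y) := nsq_of_nlsq (hw w hwm).2
  let i3 : Algebra F.F (⟨F'.F⟩ : Pool.Agent.H73.AL.NF).F := inst
  obtain ⟨Fa, Fc, F4, h1, h3, h4, hrel⟩ := biquad D a H hn hF x y hx hy hxy (fun w hwm => (hw' w hwm).1)
    (fun w hwm => (hw' w hwm).2) hTx ⟨F'.F⟩ θ deg hθ
  have hM : D.MER a F'.F := mer_of_rel2 D hTp hT ha (K := ⟨F.F⟩) (Fb := ⟨F'.F⟩) hrel h4 h1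
    (hw2_all hTp hT D a ha hfr hV H hn hF) h3
  exact hw_of_mer F'.F T hTp hT D a ha (sqRel_of_frob F'.F T a hfr) (od_fin V F').toFinset
    (od_away' hV F') (od_ne hE') (hwv D a H (by omega) hF') hM

end

theorem towersN (k : Type) [Field k] [NumberField k] (T : Finset ℕ) (hTp : ∀ p ∈ T, p.Prime)
    (hT : ∀ p : ℕ, p.Prime → p < 101 → p ∈ T) (D : LocData T) (a : ℕ → ℝ)
    (ha : ∀ q : ℕ, |a q| ≤ 2 * Real.sqrt q) (hfr : FrobRel T a)
    (V : Finset (HeightOneSpectrum (𝓞 k))) (hV : ∀ v ∈ V, Away k T v) (N : ℕ)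
    (H : ∀ n : ℕ, n ≤ N + 2 → ∀ F : Ext k, QTn k n F → AllEven V F → D.HW a F.F) :
    (∀ n : ℕ, n ≤ N → ∀ F : Ext k, QTn k (n + 1) F → D.HW a F.F) ∧
      (∀ n : ℕ, n ≤ N → ∀ F : Ext k, QTn k n F → HW2 D a F.F) ∧
      ∀ n : ℕ, n ≤ N + 1 → ∀ F : Ext k, QTn k n F → HWV D a (od_fin V F).toFinset := by
  refine ⟨fun n hn F hF => ?_, fun n hn F hF => hw2_all hTp hT D a ha hfr hV H hn hF,
    fun n hn F hF => hwv D a H hn hF⟩
  cases hF with
  | step inst tow h deg => exact hw_step hTp hT D a ha hfr hV H hn h inst tow deg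

end Pool.Agent.MD
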