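import Pool.Agent.LD.L.Defs
import Pool.Agent.LD.L.Deg

/-!
# MD/F-Defs: towers of quadratic extensions
-/

namespace Pool.Agent.MD

open NumberField IsDedekindDomain Pool.Agent.LD

/-- a finite extension of the number field `k` -/
structure Ext (k : Type) [Field k] where
  F : Type
  [fld : Field F]
  [nf : NumberField F]
  [alg : Algebra k F]

attribute [instance] Ext.fld Ext.nf Ext.alg

/-- `F` is obtained from `k` by successive quadratic extensions -/
inductive QT (k : Type) [Field k] [NumberField k] : Ext k → Prop
  | base : QT k ⟨k⟩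
  | step {F F' : Ext k} (inst : Algebra F.F F'.F) (tow : IsScalarTower k F.F F'.F)
      (h : QT k F) (deg : Module.finrank F.F F'.F = 2) : QT k F'

/-- the places of `F` above `V` of odd local degree over `k` -/
noncomputable def Od {k : Type} [Field k] [NumberField k] (V : Finset (HeightOneSpectrum (𝓞 k)))
    (F : Ext k) : Set (HeightOneSpectrum (𝓞 F.F)) :=
  {w | ∃ v ∈ V, Over v w ∧ ¬ 2 ∣ locDeg k w}

/-- every place above `V` has even local degree -/
def AllEven {k : Type} [Field k] [NumberField k] (V : Finset (HeightOneSpectrum (𝓞 k)))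
    (F : Ext k) : Prop :=
  ∀ v ∈ V, ∀ w : HeightOneSpectrum (𝓞 F.F), Over v w → 2 ∣ locDeg k w

end Pool.Agent.MD
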