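import Pool.Agent.MD.F.Odd
import Pool.Agent.MD.F.Cho
import Pool.Agent.MD.F.Mer
import Pool.Agent.MD.L.V4
import Pool.Agent.MD.E.Fin
import Pool.Agent.QD.F.Main

/-!
# MD/F-Main: Hasse-Weil in towers of quadratic extensions, from the fields where no place of `V` has odd local degree

PLAN.  `H` is the hypothesis.  (1) `hwv`: `QT k F`, `W = (od_fin V F).toFinset`: `HWV D a W`: for `x` and `L`, `θ`: `Ext k` with `F := L`, algebra structure the composition (`((algebraMap F.F L).comp (algebraMap k F.F)).toAlgebra`,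
`IsScalarTower.of_algebraMap_eq'`), `QT.step`, `even_up`, `H`.
(2) `hw2_all`: `QT k F → HW2 D a F.F`: if `AllEven V F`: `hw2_of_hw` and `H`.  Otherwise `W` is nonempty (`allEven_iff`), `choose2` gives `a`, `b`; they are no squares, nor is `a b` (`W` nonempty; squares are local squares, `N4.LSq_sq`);
`qf` (QD/In/Def: `qf_nonempty`, `QF`) gives `Fa`, `Fb`, `Fc` (of `a`, `b`, `a b`) and `F4` over `Fa` (of `b` in `Fa`: `not_sq_quad`); all are in `QT` and `AllEven` (`even_up`; for `F4` with `θ := algebraMap θa`, or `od_down`), so `HW`.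
`rel_v4`, `mer2_of_rel`, `hw2_of_mer2` with `V := W`.
(3) `hw_step`: `QT k F`, `F'` quadratic over `F`: `HW F'`: if `AllEven V F'`: `H`.  Otherwise `Od V F` is nonempty (`od_down`, `allEven_iff`); `exists_root`: `b`, `θ ∈ F'`; `choose1`: `a`; `Fa`, `Fc`, `F4` as before; `rel_v4` with `Fb = F'`; `mer_of_rel2` with
`hw2_all F`; `hw_of_mer` for `F'` with `V := Od V F'`, `HWV` from (1).
`towers`: `QT k F` with `finrank k F ≠ 1` is not the base case, so it is a step (cases on `QT`; in the base case `finrank k k = 1`).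
`sqRel_of_frob` gives `SqRel` for every field.
-/

namespace Pool.Agent.MD

open NumberField IsDedekindDomain Pool.Agent.HWR Pool.Agent.QD Pool.Agent.QD.In Pool.Agent.LD

/-- an extension of `F` as an extension of `k` -/
private noncomputable def up {k : Type} [Field k] [NumberField k] (F : Ext k) (L : Type) [Field L]
    [NumberField L] [Algebra F.F L] : Ext k :=
  { F := L
    alg := ((algebraMap F.F L).comp (algebraMap k F.F)).toAlgebra }

private noncomputable instance upAlg {k : Type} [Field k] [NumberField k] (F : Ext k) (L : Type) [Field L]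
    [NumberField L] [i : Algebra F.F L] : Algebra F.F (up F L).F := i

private instance upTow {k : Type} [Field k] [NumberField k] (F : Ext k) (L : Type) [Field L]
    [NumberField L] [Algebra F.F L] : IsScalarTower k F.F (up F L).F :=
  IsScalarTower.of_algebraMap_eq' rfl

private theorem up_QT {k : Type} [Field k] [NumberField k] {F : Ext k} (h : QT k F) (L : Type) [Field L]
    [NumberField L] [Algebra F.F L] (hd : Module.finrank F.F L = 2) : QT k (up F L) :=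
  QT.step (F := F) (F' := up F L) (upAlg F L) (upTow F L) h hd

private theorem nsq_of_nlsq {K : Type} [Field K] [NumberField K] {v : HeightOneSpectrum (𝓞 K)} {x : Kˣ}
    (h : ¬ LSq v x) : ¬ IsSquare x := by
  rintro ⟨r, hr⟩
  apply h
  rw [hr, ← pow_two]
  exact Pool.Agent.QD.N4.LSq_sq v r

private theorem nsq_val {K : Type} [Field K] {x : Kˣ} (h : ¬ IsSquare x) : ¬ IsSquare (x : K) := by
  rintro ⟨r, hr⟩
  apply h
  have hr0 : r ≠ 0 := by
    intro h0
    rw [h0, mul_zero] at hr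
    exact x.ne_zero hr
  refine ⟨Units.mk0 r hr0, Units.ext ?_⟩
  rw [Units.val_mul, Units.val_mk0]
  exact hr

section

variable {k : Type} [Field k] [NumberField k] {T : Finset ℕ} (hTp : ∀ p ∈ T, p.Prime)
    (hT : ∀ p : ℕ, p.Prime → p < 101 → p ∈ T) (D : LocData T) (a : ℕ → ℝ)
    (ha : ∀ q : ℕ, |a q| ≤ 2 * Real.sqrt q) (hfr : FrobRel T a)
    {V : Finset (HeightOneSpectrum (𝓞 k))} (hV : ∀ v ∈ V, Away k T v)
    (H : ∀ F : Ext k, QT k F → AllEven V F → D.HW a F.F)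

include H in
private theorem hwv {F : Ext k} (hF : QT k F) : HWV D a (od_fin V F).toFinset := by
  intro x hx L _ _ _ θ hd hθ
  have h1 : QT k (up F L) := up_QT hF L hd
  have h2 : AllEven V (up F L) :=
    even_up (F := F) (up F L) x θ hθ fun w hw => hx w ((od_fin V F).mem_toFinset.2 hw)
  exact H (up F L) h1 h2

include hV in
private theorem od_away' (F : Ext k) : ∀ w ∈ (od_fin V F).toFinset, Away F.F T w :=
  fun w hw => od_away hV F w ((od_fin V F).mem_toFinset.1 hw)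

private theorem od_ne {F : Ext k} (h : ¬ AllEven V F) : (od_fin V F).toFinset.Nonempty := by
  rw [Set.Finite.toFinset_nonempty, Set.nonempty_iff_ne_empty]
  exact fun h0 => h ((allEven_iff F).2 h0)

include H in
/-- Hasse-Weil for a quadratic extension of `F` generated by the root of an element which is no
local square at the odd places -/
private theorem hw_quad {F : Ext k} (hF : QT k F) (x : (F.F)ˣ) (hxw : ∀ w ∈ Od V F, ¬ LSq w x)
    (L : Type) [Field L] [NumberField L] [Algebra F.F L] (θ : L) (hd : Module.finrank F.F L = 2)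
    (hθ : θ ^ 2 = algebraMap F.F L (x : F.F)) : QT k (up F L) ∧ AllEven V (up F L) ∧ D.HW a L := by
  have h1 : QT k (up F L) := up_QT hF L hd
  have h2 : AllEven V (up F L) := even_up (F := F) (up F L) x θ hθ hxw
  exact ⟨h1, h2, H (up F L) h1 h2⟩

include H in
private theorem hw_down {E : Ext k} (hE : QT k E) (hA : AllEven V E) (L : Type) [Field L] [NumberField L]
    [Algebra E.F L] (hd : Module.finrank E.F L = 2) : D.HW a L :=
  H (up E L) (up_QT hE L hd) (od_down (F := E) (up E L) hA)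

include H in
/-- the fields of a biquadratic extension -/
private theorem biquad {F : Ext k} (hF : QT k F) (x y : (F.F)ˣ)
    (hx : ¬ IsSquare x) (hy : ¬ IsSquare y) (hxy : ¬ IsSquare (x * y))
    (hxw : ∀ w ∈ Od V F, ¬ LSq w x) (hxyw : ∀ w ∈ Od V F, ¬ LSq w (x * y))
    (hTx : ∀ v : HeightOneSpectrum (𝓞 F.F), ¬ Away F.F T v → LSq v x)
    (Fb : Pool.Agent.H73.AL.NF) [Algebra F.F Fb.F] (θb : Fb.F) (db : Module.finrank F.F Fb.F = 2)
    (sb : θb ^ 2 = algebraMap F.F Fb.F (y : F.F)) :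
    ∃ Fa Fc F4 : Pool.Agent.H73.AL.NF, D.HW a Fa.F ∧ D.HW a Fc.F ∧ D.HW a F4.F ∧
      Pool.Agent.H73.AL.Rel T [⟨F.F⟩, ⟨F.F⟩, F4] [Fa, Fb, Fc] := by
  obtain ⟨qa⟩ := qf_nonempty hx
  obtain ⟨qc⟩ := qf_nonempty hxy
  have h4ns : ¬ IsSquare (algebraMap F.F qa.L (y : F.F)) :=
    not_sq_quad (nsq_val hx) (nsq_val hy) (by rw [← Units.val_mul]; exact nsq_val hxy) qa.θ qa.sq qa.deg
  have h4 : ¬ IsSquare (Units.map (algebraMap F.F qa.L : F.F →* qa.L) y) := by
    rintro ⟨r, hr⟩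
    apply h4ns
    refine ⟨(r : qa.L), ?_⟩
    have := congrArg (fun u : (qa.L)ˣ => (u : qa.L)) hr
    simpa using this
  obtain ⟨q4⟩ := qf_nonempty h4
  obtain ⟨a1, a2, a3⟩ := hw_quad D a H hF x hxw qa.L qa.θ qa.deg qa.sq
  obtain ⟨c1, c2, c3⟩ := hw_quad D a H hF (x * y) hxyw qc.L qc.θ qc.deg qc.sq
  have b3 : D.HW a q4.L :=
    @hw_down k _ _ T D a V H (up F qa.L) a1 a2 q4.L q4.fld q4.nf q4.alg q4.deg
  refine ⟨⟨qa.L⟩, ⟨qc.L⟩, ⟨q4.L⟩, a3, c3, b3, ?_⟩
  let i1 : Algebra (⟨F.F⟩ : Pool.Agent.H73.AL.NF).F (⟨qa.L⟩ : Pool.Agent.H73.AL.NF).F := qa.alg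
  let i2 : Algebra (⟨F.F⟩ : Pool.Agent.H73.AL.NF).F (⟨qc.L⟩ : Pool.Agent.H73.AL.NF).F := qc.alg
  let i3 : Algebra (⟨F.F⟩ : Pool.Agent.H73.AL.NF).F Fb.F := inferInstanceAs (Algebra F.F Fb.F)
  let i4 : Algebra (⟨qa.L⟩ : Pool.Agent.H73.AL.NF).F (⟨q4.L⟩ : Pool.Agent.H73.AL.NF).F := q4.alg
  exact rel_v4 T ⟨F.F⟩ ⟨qa.L⟩ Fb ⟨qc.L⟩ ⟨q4.L⟩ x y hx hy hxy qa.θ θb qc.θ q4.θ qa.deg db qc.deg q4.deg
    qa.sq sb qc.sq q4.sq hTx

include hTp hT ha hfr hV H in
private theorem hw2_all {F : Ext k} (hF : QT k F) : HW2 D a F.F := by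
  by_cases hE : AllEven V F
  · exact hw2_of_hw D F.F (H F hF hE)
  obtain ⟨x, y, hTx, hw⟩ := choose2 hTp (hT 2 Nat.prime_two (by norm_num)) (od_fin V F).toFinset
    (od_away' hV F)
  obtain ⟨w, hwm⟩ := od_ne hE
  have hw' : ∀ w ∈ Od V F, ¬ LSq w x ∧ ¬ LSq w y ∧ ¬ LSq w (x * y) :=
    fun w hwm => hw w ((od_fin V F).mem_toFinset.2 hwm)
  have hx : ¬ IsSquare x := nsq_of_nlsq (hw w hwm).1
  have hy : ¬ IsSquare y := nsq_of_nlsq (hw w hwm).2.1
  have hxy : ¬ IsSquare (x * y) := nsq_of_nlsq (hw w hwm).2.2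
  obtain ⟨qb⟩ := qf_nonempty hy
  let i3 : Algebra F.F (⟨qb.L⟩ : Pool.Agent.H73.AL.NF).F := qb.alg
  obtain ⟨Fa, Fc, F4, h1, h3, h4, hrel⟩ := biquad D a H hF x y hx hy hxy (fun w hwm => (hw' w hwm).1)
    (fun w hwm => (hw' w hwm).2.2) hTx ⟨qb.L⟩ qb.θ qb.deg qb.sq
  have h2 : D.HW a qb.L := (hw_quad D a H hF y (fun w hwm => (hw' w hwm).2.1) qb.L qb.θ qb.deg qb.sq).2.2
  have hM : MER2 D a F.F := mer2_of_rel D hTp hT ha (K := ⟨F.F⟩) (Fb := ⟨qb.L⟩) hrel h4 h1 h2 h3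
  exact hw2_of_mer2 F.F T hTp hT D a ha (sqRel_of_frob F.F T a hfr) (od_fin V F).toFinset
    (od_away' hV F) (od_ne hE) (hwv D a H hF) hM

include hTp hT ha hfr hV H in
private theorem hw_step {F F' : Ext k} (hF : QT k F) (inst : Algebra F.F F'.F)
    (tow : IsScalarTower k F.F F'.F) (deg : Module.finrank F.F F'.F = 2) : D.HW a F'.F := by
  have hF' : QT k F' := QT.step inst tow hF deg
  by_cases hE' : AllEven V F'
  · exact H F' hF' hE'
  have hE : ¬ AllEven V F := fun h => hE' (od_down (F := F) F' h)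
  obtain ⟨y, θ, hy, hθ⟩ := exists_root (K := F.F) F'.F deg
  obtain ⟨x, hTx, hw⟩ := choose1 hTp (hT 2 Nat.prime_two (by norm_num)) (od_fin V F).toFinset
    (od_away' hV F) y
  obtain ⟨w, hwm⟩ := od_ne hE
  have hw' : ∀ w ∈ Od V F, ¬ LSq w x ∧ ¬ LSq w (x * y) :=
    fun w hwm => hw w ((od_fin V F).mem_toFinset.2 hwm)
  have hx : ¬ IsSquare x := nsq_of_nlsq (hw w hwm).1
  have hxy : ¬ IsSquare (x * y) := nsq_of_nlsq (hw w hwm).2
  let i3 : Algebra F.F (⟨F'.F⟩ : Pool.Agent.H73.AL.NF).F := inst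
  obtain ⟨Fa, Fc, F4, h1, h3, h4, hrel⟩ := biquad D a H hF x y hx hy hxy (fun w hwm => (hw' w hwm).1)
    (fun w hwm => (hw' w hwm).2) hTx ⟨F'.F⟩ θ deg hθ
  have hM : D.MER a F'.F := mer_of_rel2 D hTp hT ha (K := ⟨F.F⟩) (Fb := ⟨F'.F⟩) hrel h4 h1
    (hw2_all hTp hT D a ha hfr hV H hF) h3
  exact hw_of_mer F'.F T hTp hT D a ha (sqRel_of_frob F'.F T a hfr) (od_fin V F').toFinset
    (od_away' hV F') (od_ne hE') (hwv D a H hF') hM

end

theorem towers (k : Type) [Field k] [NumberField k] (T : Finset ℕ) (hTp : ∀ p ∈ T, p.Prime)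
    (hT : ∀ p : ℕ, p.Prime → p < 101 → p ∈ T) (D : LocData T) (a : ℕ → ℝ)
    (ha : ∀ q : ℕ, |a q| ≤ 2 * Real.sqrt q) (hfr : FrobRel T a)
    (V : Finset (HeightOneSpectrum (𝓞 k))) (hV : ∀ v ∈ V, Away k T v)
    (H : ∀ F : Ext k, QT k F → AllEven V F → D.HW a F.F) :
    (∀ F : Ext k, QT k F → Module.finrank k F.F ≠ 1 → D.HW a F.F) ∧
      ∀ F : Ext k, QT k F → HW2 D a F.F := by
  refine ⟨fun F hF hd => ?_, fun F hF => hw2_all hTp hT D a ha hfr hV H hF⟩
  cases hF with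
  | base => exact absurd (Module.finrank_self k) hd
  | step inst tow h deg => exact hw_step hTp hT D a ha hfr hV H h inst tow deg

end Pool.Agent.MD
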