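import Pool.Agent.MD.F.Defs
import Pool.Agent.QD.In.Ex

/-!
# MD/F-Odd: places of odd local degree

PLAN.  `od_fin`: the places `w` of `F` above `v` are finitely many: they contain a nonzero element of `v` (`finite_mem`, QD/N3/Basic: `a ∈ v`, `a ≠ 0`, `algebraMap a ∈ w`).  `od_away`: as `ind_away` (private in
LD/L/Ind.lean).  `over_unique`-like fact: every `w'` of `F'` lies over a unique `w` of `F` (`w = w'.comap`: the ideal `w'.asIdeal.comap` is prime and nonzero; it lies over `v` if `w'` does).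
`even_up`: let `W` be a place of `F'` over `v ∈ V`, `w` the place of `F` below it (over `v`); `locDeg k W = locDeg k w * locDeg F W` (`locDeg_tower`).  If `2 ∣ locDeg k w`: done.  Otherwise `w ∈ Od V F`, so `x` is no local square
at `w`, and `two_dvd` (LD/L/Deg) gives `2 ∣ locDeg F W`.
`od_down`: if `Od V F = ∅` then `AllEven V F'` for every extension `F'` (same multiplicativity); contrapositive used in F/Main.
-/

namespace Pool.Agent.MD

open NumberField IsDedekindDomain Pool.Agent.HWR Pool.Agent.QD Pool.Agent.QD.In Pool.Agent.LD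

private theorem od_below {k F M : Type} [Field k] [NumberField k] [Field F] [NumberField F]
    [Field M] [NumberField M] [Algebra k F] [Algebra F M] [Algebra k M] [IsScalarTower k F M]
    (v : HeightOneSpectrum (𝓞 k)) (W : HeightOneSpectrum (𝓞 M)) (hW : Over v W) :
    ∃ w : HeightOneSpectrum (𝓞 F), Over v w ∧ Over w W := by
  have hprime : W.asIdeal.IsPrime := W.isPrime
  have hb : W.asIdeal.comap (algebraMap (𝓞 F) (𝓞 M)) ≠ ⊥ := Ideal.under_ne_bot (𝓞 F) W.ne_bot
  refine ⟨⟨W.asIdeal.comap (algebraMap (𝓞 F) (𝓞 M)), Ideal.IsPrime.comap _, hb⟩, ?_, rfl⟩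
  unfold Over at hW ⊢
  rw [← hW, Ideal.comap_comap, ← IsScalarTower.algebraMap_eq]

theorem od_fin {k : Type} [Field k] [NumberField k] (V : Finset (HeightOneSpectrum (𝓞 k)))
    (F : Ext k) : (Od V F).Finite := by
  have h : Od V F ⊆ ⋃ v ∈ (V : Set (HeightOneSpectrum (𝓞 k))),
      {w : HeightOneSpectrum (𝓞 F.F) | Over v w} := by
    rintro w ⟨v, hv, hw, -⟩
    exact Set.mem_iUnion₂.2 ⟨v, hv, hw⟩
  refine Set.Finite.subset (Set.Finite.biUnion V.finite_toSet fun v _ => ?_) h
  obtain ⟨a, ha, ha0⟩ := Submodule.exists_mem_ne_zero_of_ne_bot v.ne_bot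
  have ha' : algebraMap (𝓞 k) (𝓞 F.F) a ≠ 0 := by
    rw [Ne, FaithfulSMul.algebraMap_eq_zero_iff]
    exact ha0
  refine (finite_mem (algebraMap (𝓞 k) (𝓞 F.F) a) ha').subset ?_
  intro w hw
  have hw' : w.asIdeal.comap (algebraMap (𝓞 k) (𝓞 F.F)) = v.asIdeal := hw
  have h1 : a ∈ w.asIdeal.comap (algebraMap (𝓞 k) (𝓞 F.F)) := by
    rw [hw']
    exact ha
  exact h1

theorem od_away {k : Type} [Field k] [NumberField k] {T : Finset ℕ}
    {V : Finset (HeightOneSpectrum (𝓞 k))} (hV : ∀ v ∈ V, Away k T v) (F : Ext k) :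
    ∀ w ∈ Od V F, Away F.F T w := by
  rintro w ⟨v, hv, hw, -⟩ p hp hmem
  refine hV v hv p hp ?_
  rw [← show w.asIdeal.comap (algebraMap (𝓞 k) (𝓞 F.F)) = v.asIdeal from hw, Ideal.mem_comap,
    map_natCast]
  exact hmem

/-- adjoining a square root of an element which is no local square at the odd places -/
theorem even_up {k : Type} [Field k] [NumberField k] {V : Finset (HeightOneSpectrum (𝓞 k))}
    {F : Ext k} (F' : Ext k) [Algebra F.F F'.F] [IsScalarTower k F.F F'.F] (x : (F.F)ˣ)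
    (θ : F'.F) (hθ : θ ^ 2 = algebraMap F.F F'.F (x : F.F)) (hx : ∀ w ∈ Od V F, ¬ LSq w x) :
    AllEven V F' := by
  intro v hv W hW
  obtain ⟨w, hw, hwW⟩ := od_below (F := F.F) v W hW
  rw [locDeg_tower k F.F F'.F w W hwW]
  by_cases h2 : 2 ∣ locDeg k w
  · exact h2.mul_right _
  · exact (two_dvd F'.F x θ hθ w (hx w ⟨v, hv, hw, h2⟩) W hwW).mul_left _

theorem od_down {k : Type} [Field k] [NumberField k] {V : Finset (HeightOneSpectrum (𝓞 k))}
    {F : Ext k} (F' : Ext k) [Algebra F.F F'.F] [IsScalarTower k F.F F'.F] (h : AllEven V F) :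
    AllEven V F' := by
  intro v hv W hW
  obtain ⟨w, hw, hwW⟩ := od_below (F := F.F) v W hW
  rw [locDeg_tower k F.F F'.F w W hwW]
  exact (h v hv w hw).mul_right _

theorem allEven_iff {k : Type} [Field k] [NumberField k] {V : Finset (HeightOneSpectrum (𝓞 k))}
    (F : Ext k) : AllEven V F ↔ Od V F = ∅ := by
  constructor
  · intro h
    rw [Set.eq_empty_iff_forall_notMem]
    rintro w ⟨v, hv, hw, h2⟩
    exact h2 (h v hv w hw)
  · intro h v hv w hw
    by_contra h2
    have : w ∈ Od V F := ⟨v, hv, hw, h2⟩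
    rw [h] at this
    exact this

end Pool.Agent.MD
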